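import Mathlib
import Pool.Graph.R_pool_sql_team_seeded_c8625f6e.K4H34.AL.Comb2
import Pool.Graph.R_seed8.Y4.Aut

/-!
# Galois twists and finite products of inductive invariants of Artin characters
-/

set_option autoImplicit false
set_option linter.unusedSectionVars false

namespace Pool.Agent.H600.SF

open NumberField Pool.Agent.K4H74 Pool.Agent.K4H74.ST Pool.Agent.K4H74.SK

/-- The invariant `χ ↦ A(χ^τ)`, for an automorphism `τ` of `ℂ`. -/
noncomputable def twist {M : Type} [CommGroup M] (A : ArtinInvariant M) (τ : ℂ ≃+* ℂ) :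
    ArtinInvariant M where
  val K L _ _ _ _ _ _ χ := A.val K L (fun g => τ (χ g))
  val_add K L _ _ _ _ _ _ χ χ' h h' := by
    have h1 := A.val_add K L (fun g => τ (χ g)) (fun g => τ (χ' g))
      (Pool.Agent.K4H74.SC.isChar_sigma h τ.toRingHom) (Pool.Agent.K4H74.SC.isChar_sigma h' τ.toRingHom)
    rw [← h1]
    congr 1
    funext g
    exact map_add τ _ _
  val_infl K L N _ _ _ _ _ _ _ _ _ _ _ _ χ h :=
    A.val_infl K L N (fun g => τ (χ g)) (Pool.Agent.K4H74.SC.isChar_sigma h τ.toRingHom)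
  val_ind K F L _ _ _ _ _ _ _ _ _ _ _ _ χ h := by
    rw [← A.val_ind K F L (fun g => τ (χ g)) (Pool.Agent.K4H74.SC.isChar_sigma h τ.toRingHom)]
    congr 1
    funext g
    exact SC.indChar_sigma τ.toRingHom χ g

/-- The product of finitely many invariants. -/
noncomputable def fprod {ι M : Type} [Fintype ι] [CommGroup M] (A : ι → ArtinInvariant M) :
    ArtinInvariant M where
  val K L _ _ _ _ _ _ χ := ∏ i, (A i).val K L χ
  val_add K L _ _ _ _ _ _ χ χ' h h' := by
    rw [← Finset.prod_mul_distrib]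
    exact Finset.prod_congr rfl fun i _ => (A i).val_add K L χ χ' h h'
  val_infl K L N _ _ _ _ _ _ _ _ _ _ _ _ χ h :=
    Finset.prod_congr rfl fun i _ => (A i).val_infl K L N χ h
  val_ind K F L _ _ _ _ _ _ _ _ _ _ _ _ χ h :=
    Finset.prod_congr rfl fun i _ => (A i).val_ind K F L χ h

/-- For `a` prime to `n` there is an automorphism of `ℂ` which raises the `n`-th roots of unity to
the power `a`. -/
theorem exists_aut (n : ℕ) (hn : n ≠ 0) (a : ℕ) (ha : a.Coprime n) :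
    ∃ τ : ℂ ≃+* ℂ, ∀ z : ℂ, z ^ n = 1 → τ z = z ^ a := by
  have : NeZero n := ⟨hn⟩
  let ζ : ℂ := Complex.exp (2 * Real.pi * Complex.I / n)
  have hζ : IsPrimitiveRoot ζ n := Complex.isPrimitiveRoot_exp n hn
  have hζa : IsPrimitiveRoot (ζ ^ a) n := hζ.pow_of_coprime a ha
  have hC : IsCyclotomicExtension {n} ℚ (CyclotomicField n ℚ) :=
    CyclotomicField.isCyclotomicExtension n ℚ
  let μ : CyclotomicField n ℚ := IsCyclotomicExtension.zeta n ℚ (CyclotomicField n ℚ)
  have hμ : IsPrimitiveRoot μ n := IsCyclotomicExtension.zeta_spec n ℚ (CyclotomicField n ℚ)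
  have hirr : Irreducible (Polynomial.cyclotomic n ℚ) :=
    Polynomial.cyclotomic.irreducible_rat (Nat.pos_of_ne_zero hn)
  have hex : ∀ z : ℂ, IsPrimitiveRoot z n → ∃ φ : CyclotomicField n ℚ →ₐ[ℚ] ℂ, φ μ = z := by
    intro z hz
    have h1 : minpoly ℚ μ = Polynomial.cyclotomic n ℚ :=
      (IsPrimitiveRoot.minpoly_eq_cyclotomic_of_irreducible hμ hirr).symm
    have h2 : Polynomial.aeval z (minpoly ℚ (hμ.powerBasis ℚ).gen) = 0 := by
      rw [IsPrimitiveRoot.powerBasis_gen, h1, ← Polynomial.eval_map_algebraMap,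
        Polynomial.map_cyclotomic]
      exact hz.isRoot_cyclotomic (Nat.pos_of_ne_zero hn)
    refine ⟨(hμ.powerBasis ℚ).lift z h2, ?_⟩
    have h3 := (hμ.powerBasis ℚ).lift_gen z h2
    rwa [IsPrimitiveRoot.powerBasis_gen] at h3
  obtain ⟨φ, hφ⟩ := hex ζ hζ
  obtain ⟨ψ, hψ⟩ := hex (ζ ^ a) hζa
  obtain ⟨τ, hτ⟩ := Pool.Agent.Y4.exists_aut_emb (φ : CyclotomicField n ℚ →+* ℂ)
    (ψ : CyclotomicField n ℚ →+* ℂ)
  refine ⟨τ, fun z hz => ?_⟩
  have h1 : τ ζ = ζ ^ a := by
    have h2 := RingHom.congr_fun hτ μ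
    change τ (φ μ) = ψ μ at h2
    rwa [hφ, hψ] at h2
  obtain ⟨i, _, rfl⟩ := hζ.eq_pow_of_pow_eq_one hz
  rw [map_pow, h1, ← pow_mul, ← pow_mul, mul_comm]

end Pool.Agent.H600.SF
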