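import Mathlib
import Pool.Agent.H600.SF.Tw

/-!
# Linear characters of finite groups: induction from the kernel of a power, and units modulo `n`
-/

set_option autoImplicit false
set_option linter.unusedSectionVars false

namespace Pool.Agent.H600.SF

open Pool.Agent.R389 Pool.Agent.K4H74.ST

section grp

variable {G : Type} [Group G] [Finite G]

lemma card_range_lin (χ : G →* ℂˣ) : Nat.card χ.range = orderOf χ := by
  have hfin : Finite χ.range := Set.finite_range χ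
  have hcyc : IsCyclic χ.range := isCyclic_subgroup_units χ.range
  rw [← IsCyclic.exponent_eq_card]
  apply Nat.dvd_antisymm
  · rw [Monoid.exponent_dvd_iff_forall_pow_eq_one]
    rintro ⟨x, g, rfl⟩
    apply Subtype.ext
    have h1 := DFunLike.congr_fun (pow_orderOf_eq_one χ) g
    exact h1
  · apply orderOf_dvd_of_pow_eq_one
    ext g
    have h1 : (⟨χ g, g, rfl⟩ : χ.range) ^ Monoid.exponent χ.range = 1 := Monoid.pow_exponent_eq_one _
    have h2 := congrArg (fun x : χ.range => ((x : ℂˣ) : ℂ)) h1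
    exact h2

lemma card_ker_lin (χ : G →* ℂˣ) : Nat.card G = orderOf χ * Nat.card χ.ker := by
  rw [← card_range_lin χ, ← Subgroup.index_ker, mul_comm]
  exact (Subgroup.card_mul_index χ.ker).symm

lemma geom_lin (χ : G →* ℂˣ) (u : G) :
    ∑ j ∈ Finset.range (orderOf χ), ((χ u : ℂˣ) : ℂ) ^ j
      = if u ∈ χ.ker then (orderOf χ : ℂ) else 0 := by
  classical
  by_cases h : u ∈ χ.ker
  · rw [if_pos h]
    rw [MonoidHom.mem_ker] at h
    rw [h]
    simp
  · rw [if_neg h]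
    rw [MonoidHom.mem_ker] at h
    have h1 : ((χ u : ℂˣ) : ℂ) ≠ 1 := fun h2 => h (Units.ext h2)
    have h3 : ((χ u : ℂˣ) : ℂ) ^ orderOf χ = 1 := by
      have h4 := DFunLike.congr_fun (pow_orderOf_eq_one χ) u
      have h5 := congrArg (fun x : ℂˣ => (x : ℂ)) h4
      exact h5
    have h6 := geom_sum_mul ((χ u : ℂˣ) : ℂ) (orderOf χ)
    rw [h3, sub_self] at h6
    rcases mul_eq_zero.mp h6 with h7 | h7
    · exact h7
    · exact absurd (sub_eq_zero.mp h7) h1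

lemma lc_pow (φ : G →* ℂˣ) (n : ℕ) (u : G) : lc (φ ^ n) u = ((φ u : ℂˣ) : ℂ) ^ n := by
  rw [lc, MonoidHom.pow_apply, Units.val_pow_eq_pow_val]

lemma hpow_mul (φ : G →* ℂˣ) (a b : ℕ) : (φ ^ a) ^ b = φ ^ (a * b) := by
  apply MonoidHom.ext
  intro u
  rw [MonoidHom.pow_apply, MonoidHom.pow_apply, MonoidHom.pow_apply, pow_mul]

lemma hpow_congr (φ : G →* ℂˣ) {a b : ℕ} (h : a ≡ b [MOD orderOf φ]) : φ ^ a = φ ^ b := by
  apply MonoidHom.ext
  intro u
  have h1 : (φ u) ^ orderOf φ = 1 := DFunLike.congr_fun (pow_orderOf_eq_one φ) u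
  have h2 : a ≡ b [MOD orderOf (φ u)] := h.of_dvd (orderOf_dvd_of_pow_eq_one h1)
  rw [MonoidHom.pow_apply, MonoidHom.pow_apply]
  exact pow_eq_pow_iff_modEq.mpr h2

/-- The restriction of `φ` to the kernel of `φ ^ g`, induced back. -/
theorem ind_ker (φ : G →* ℂˣ) {g k : ℕ} (hg : g ≠ 0) (hgk : g * k = orderOf φ) :
    ind (φ ^ g).ker (fun h => ((φ h : ℂˣ) : ℂ))
      = ∑ j ∈ Finset.range k, lc (φ ^ (1 + g * j)) := by
  classical
  have : Fintype G := Fintype.ofFinite G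
  have hk : orderOf (φ ^ g) = k := by
    rw [orderOf_pow_of_dvd hg (Dvd.intro k hgk), ← hgk, Nat.mul_div_cancel_left _ (Nat.pos_of_ne_zero hg)]
  have hcard := card_ker_lin (φ ^ g)
  rw [hk] at hcard
  funext u
  have h1 : ∀ x : G, ext (φ ^ g).ker (fun h => ((φ h : ℂˣ) : ℂ)) (x⁻¹ * u * x)
      = if u ∈ (φ ^ g).ker then ((φ u : ℂˣ) : ℂ) else 0 := by
    intro x
    have h2 : x⁻¹ * u * x ∈ (φ ^ g).ker ↔ u ∈ (φ ^ g).ker := by
      rw [MonoidHom.mem_ker, MonoidHom.mem_ker, map_mul, map_mul, map_inv, mul_comm ((φ ^ g) x)⁻¹,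
        mul_assoc, inv_mul_cancel, mul_one]
    by_cases hu : u ∈ (φ ^ g).ker
    · rw [if_pos hu, ext_mem _ _ (h2.mpr hu)]
      change ((φ (x⁻¹ * u * x) : ℂˣ) : ℂ) = _
      rw [map_mul, map_mul, map_inv, mul_comm (φ x)⁻¹, mul_assoc, inv_mul_cancel, mul_one]
    · rw [if_neg hu, ext_not _ _ (fun h => hu (h2.mp h))]
  rw [ind, finsum_congr h1, finsum_eq_sum_of_fintype, Finset.sum_const, Finset.card_univ,
    ← Nat.card_eq_fintype_card, Finset.sum_apply]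
  have h3 : ∀ j, lc (φ ^ (1 + g * j)) u = ((φ u : ℂˣ) : ℂ) * (((φ ^ g) u : ℂˣ) : ℂ) ^ j := by
    intro j
    rw [lc_pow, MonoidHom.pow_apply, Units.val_pow_eq_pow_val, pow_add, pow_one, pow_mul]
  rw [Finset.sum_congr rfl fun j _ => h3 j, ← Finset.mul_sum]
  have h4 := geom_lin (φ ^ g) u
  rw [hk] at h4
  rw [h4]
  by_cases hu : u ∈ (φ ^ g).ker
  · rw [if_pos hu, if_pos hu, nsmul_eq_mul, hcard]
    have h5 : (Nat.card (φ ^ g).ker : ℂ) ≠ 0 := by exact_mod_cast (Nat.card_pos).ne'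
    push_cast
    field_simp
  · rw [if_neg hu, if_neg hu, smul_zero, mul_zero, mul_zero]

end grp

section units

variable {D n : ℕ} [NeZero n] (hD : D ∣ n)

lemma mem_ker_iff (c : (ZMod n)ˣ) :
    c ∈ (ZMod.unitsMap hD).ker ↔ (c : ZMod n).val ≡ 1 [MOD D] := by
  rw [MonoidHom.mem_ker, ← ZMod.natCast_eq_natCast_iff, Units.ext_iff]
  have h1 : ((ZMod.unitsMap hD c : (ZMod D)ˣ) : ZMod D) = (((c : ZMod n).val : ℕ) : ZMod D) := by
    rw [ZMod.unitsMap_val, ZMod.natCast_val]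
  rw [h1, Units.val_one, Nat.cast_one]

/-- Every `b` which is prime to `d` and `1` modulo `gcd (d, D)` is, modulo `d`, a unit modulo `n`
which is `1` modulo `D`. -/
lemma exists_unit {d b : ℕ} (hd : d ∣ n) (hb : b.Coprime d) (hb1 : b ≡ 1 [MOD Nat.gcd d D]) :
    ∃ c : (ZMod.unitsMap hD).ker, ((c : (ZMod n)ˣ) : ZMod n).val ≡ b [MOD d] := by
  obtain ⟨x, hx1, hx2⟩ := Nat.chineseRemainder' hb1
  have hn : n ≠ 0 := NeZero.ne n
  have hl : Nat.lcm d D ∣ n := Nat.lcm_dvd hd hD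
  have hl0 : Nat.lcm d D ≠ 0 := fun h => hn (Nat.eq_zero_of_zero_dvd (h ▸ hl))
  have : NeZero (Nat.lcm d D) := ⟨hl0⟩
  have hxd : x.Coprime d := by
    rw [Nat.coprime_iff_gcd_eq_one, hx1.gcd_eq]
    exact hb
  have hxD : x.Coprime D := by
    rw [Nat.coprime_iff_gcd_eq_one, hx2.gcd_eq]
    exact Nat.gcd_one_left D
  have hxl : x.Coprime (Nat.lcm d D) :=
    Nat.Coprime.coprime_dvd_right (Nat.lcm_dvd_mul d D) (Nat.Coprime.mul_right hxd hxD)
  obtain ⟨c, hc⟩ := ZMod.unitsMap_surjective hl (ZMod.unitOfCoprime x hxl)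
  have h1 : (c : ZMod n).val ≡ x [MOD Nat.lcm d D] := by
    rw [← ZMod.natCast_eq_natCast_iff]
    have h2 := congrArg (fun y : (ZMod (Nat.lcm d D))ˣ => (y : ZMod (Nat.lcm d D))) hc
    simp only [ZMod.coe_unitOfCoprime] at h2
    rw [← h2, ZMod.unitsMap_val, ZMod.natCast_val]
  have h2 : (c : ZMod n).val ≡ 1 [MOD D] :=
    (h1.of_dvd (Nat.dvd_lcm_right d D)).trans hx2
  exact ⟨⟨c, (mem_ker_iff hD c).mpr h2⟩, (h1.of_dvd (Nat.dvd_lcm_left d D)).trans hx1⟩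

end units

end Pool.Agent.H600.SF
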