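import Mathlib
import Pool.Agent.H600.SF.Grp

/-!
# The product of the conjugates of an unramified linear character
-/

set_option autoImplicit false
set_option linter.unusedSectionVars false

namespace Pool.Agent.H600.SF

open NumberField Pool.Agent.R389 Pool.Agent.K4H74.ST Pool.Agent.K4H77.SL Pool.Agent.K4H34.NC

section

variable {M : Type} [CommGroup M] {A : ArtinInvariant M} {m D : ℕ}

/-- Not necessarily faithful linear characters of order dividing `D`. -/
lemma lin_triv (hA : TrivSplitLinE A m D) {K L : Type} [Field K] [NumberField K] [Field L]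
    [NumberField L] [Algebra K L] [IsGalois K L] (hK : IsTotallyComplex K)
    (hin : ∀ P : Ideal (𝓞 L), P.IsMaximal → ∀ g ∈ inertia K P, g = 1)
    (hde : ∀ P : Ideal (𝓞 L), P.IsMaximal → (m : 𝓞 L) ∈ P → ∀ g ∈ decomp K P, g = 1)
    (ψ : (L ≃ₐ[K] L) →* ℂˣ) (hψ : ψ ^ D = 1) : A.val K L (lc ψ) = 1 := by
  obtain ⟨E, i1, i2, i3, i4, i5, i6, θ, hθ, hθψ⟩ := lin_red K L ψ
  have hfinL : FiniteDimensional K L := Module.Finite.of_restrictScalars_finite ℚ K L
  have hfinE : FiniteDimensional K E := Module.Finite.of_restrictScalars_finite ℚ K E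
  have h1 : ψ = θ.comp (AlgEquiv.restrictNormalHom E) := by
    ext g
    rw [← hθψ]
    rfl
  have hθD : θ ^ D = 1 := by
    apply MonoidHom.ext
    intro y
    obtain ⟨g, rfl⟩ := AlgEquiv.restrictNormalHom_surjective (F := K) (K₁ := E) L y
    rw [MonoidHom.pow_apply, hθψ, ← MonoidHom.pow_apply, hψ]
    rfl
  rw [h1, val_lin_res]
  exact hA K E hK (unram_sub hin) (split_sub hde) θ hθ hθD

lemma val_sum {K L : Type} [Field K] [NumberField K] [Field L] [NumberField L] [Algebra K L]
    [IsGalois K L] {ι : Type} (s : Finset ι) (f : ι → ((L ≃ₐ[K] L) →* ℂˣ)) :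
    A.val K L (∑ j ∈ s, lc (f j)) = ∏ j ∈ s, A.val K L (lc (f j)) := by
  classical
  have h0 : ∀ s : Finset ι, IsChar (∑ j ∈ s, lc (f j)) := fun s =>
    Finset.sum_induction _ IsChar (fun a b ha hb => ha.add hb) IsChar.zero
      (fun j _ => IsChar.lc (f j))
  induction s using Finset.induction_on with
  | empty => rw [Finset.sum_empty, Finset.prod_empty, val_zero]
  | insert a s ha ih =>
    rw [Finset.sum_insert ha, Finset.prod_insert ha, A.val_add K L _ _ (IsChar.lc _) (h0 s), ih]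

/-- The characters with a given restriction to the kernel of `φ ^ g`, `g = gcd (orderOf φ, D)`. -/
theorem prod_one (hA : TrivSplitLinE A m D) {K L : Type} [Field K] [NumberField K] [Field L]
    [NumberField L] [Algebra K L] [IsGalois K L] (hK : IsTotallyComplex K)
    (hin : ∀ P : Ideal (𝓞 L), P.IsMaximal → ∀ g ∈ inertia K P, g = 1)
    (hde : ∀ P : Ideal (𝓞 L), P.IsMaximal → (m : 𝓞 L) ∈ P → ∀ g ∈ decomp K P, g = 1)
    (φ : (L ≃ₐ[K] L) →* ℂˣ) {g k : ℕ} (hg : g ≠ 0) (hgD : g ∣ D) (hgk : g * k = orderOf φ) :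
    ∏ j ∈ Finset.range k, A.val K L (lc (φ ^ (1 + g * j))) = 1 := by
  have hfinL : FiniteDimensional K L := Module.Finite.of_restrictScalars_finite ℚ K L
  rw [← val_sum, ← ind_ker φ hg hgk, ind_fixed]
  let B : Subgroup (L ≃ₐ[K] L) := (φ ^ g).ker
  let F := IntermediateField.fixedField B
  let e : B ≃* (L ≃ₐ[F] L) := IntermediateField.subgroupEquivAlgEquiv B
  let ψ : (L ≃ₐ[F] L) →* ℂˣ := (φ.comp B.subtype).comp e.symm.toMonoidHom
  have h1 : (fun x : L ≃ₐ[F] L => ((φ (e.symm x : B) : ℂˣ) : ℂ)) = lc ψ := rfl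
  change A.val K L (indChar K F L (fun x : L ≃ₐ[F] L => ((φ (e.symm x : B) : ℂˣ) : ℂ))) = 1
  rw [h1, A.val_ind K F L (lc ψ) (IsChar.lc ψ)]
  have hF : IsTotallyComplex F := by
    have h3 : ∀ v : InfinitePlace F, v.IsComplex := by
      intro v
      rw [← InfinitePlace.not_isReal_iff_isComplex]
      intro hv
      have h4 : (v.comap (algebraMap K F)).IsReal := InfinitePlace.IsReal.comap _ hv
      exact InfinitePlace.not_isReal_iff_isComplex.mpr (hK.isComplex _) h4
    exact ⟨h3⟩
  have hinF : ∀ P : Ideal (𝓞 L), P.IsMaximal → ∀ g ∈ inertia F P, g = 1 := by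
    intro P hP g hg
    have h3 : g.restrictScalars K ∈ inertia K P := by
      intro x
      exact hg x
    have h4 := hin P hP _ h3
    ext x
    exact AlgEquiv.congr_fun h4 x
  have hdeF : ∀ P : Ideal (𝓞 L), P.IsMaximal → (m : 𝓞 L) ∈ P → ∀ g ∈ decomp F P, g = 1 := by
    intro P hP hm g hg
    have h3 : g.restrictScalars K ∈ decomp K P := by
      intro x
      exact hg x
    have h4 := hde P hP hm _ h3
    ext x
    exact AlgEquiv.congr_fun h4 x
  have hψ : ψ ^ D = 1 := by
    obtain ⟨c, hc⟩ := hgD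
    apply MonoidHom.ext
    intro y
    have h5 : φ (e.symm y : B) ^ g = 1 := (e.symm y : B).2
    change φ (e.symm y : B) ^ D = 1
    rw [hc, pow_mul, h5, one_pow]
  exact lin_triv hA hF hinF hdeF ψ hψ

variable {n : ℕ} [NeZero n] (hDn : D ∣ n)

/-- The product of the values of the conjugates of `φ` over `ℚ(ζ_D)`. -/
noncomputable def cprod (A : ArtinInvariant M) {K L : Type} [Field K] [NumberField K] [Field L]
    [NumberField L] [Algebra K L] [IsGalois K L] (φ : (L ≃ₐ[K] L) →* ℂˣ) : M :=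
  ∏ a : (ZMod.unitsMap hDn).ker, A.val K L (lc (φ ^ ((a : (ZMod n)ˣ) : ZMod n).val))

lemma cprod_conj {K L : Type} [Field K] [NumberField K] [Field L] [NumberField L] [Algebra K L]
    [IsGalois K L] (φ : (L ≃ₐ[K] L) →* ℂˣ) (hφ : orderOf φ ∣ n) {b : ℕ}
    (hb : b.Coprime (orderOf φ)) (hb1 : b ≡ 1 [MOD Nat.gcd (orderOf φ) D]) :
    cprod hDn A (φ ^ b) = cprod hDn A φ := by
  obtain ⟨c, hc⟩ := exists_unit hDn hφ hb hb1
  refine Fintype.prod_equiv (Equiv.mulLeft c) _ _ fun a => ?_
  have h1 : (φ ^ b) ^ ((a : (ZMod n)ˣ) : ZMod n).val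
      = φ ^ (((Equiv.mulLeft c) a : (ZMod n)ˣ) : ZMod n).val := by
    rw [hpow_mul]
    apply hpow_congr
    change _ ≡ (((c * a : (ZMod.unitsMap hDn).ker) : (ZMod n)ˣ) : ZMod n).val [MOD orderOf φ]
    rw [Subgroup.coe_mul, Units.val_mul, ZMod.val_mul]
    refine (Nat.ModEq.mul_right _ hc.symm).trans ?_
    exact ((Nat.mod_modEq _ n).of_dvd hφ).symm
  rw [h1]

/-- **The key theorem.** -/
theorem cprod_one (htf : ∀ (x : M) (k : ℕ), 0 < k → x ^ k = 1 → x = 1) (hA : TrivSplitLinE A m D)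
    {K L : Type} [Field K] [NumberField K] [Field L]
    [NumberField L] [Algebra K L] [IsGalois K L] (hK : IsTotallyComplex K)
    (hin : ∀ P : Ideal (𝓞 L), P.IsMaximal → ∀ g ∈ inertia K P, g = 1)
    (hde : ∀ P : Ideal (𝓞 L), P.IsMaximal → (m : 𝓞 L) ∈ P → ∀ g ∈ decomp K P, g = 1) (d : ℕ) :
    ∀ φ : (L ≃ₐ[K] L) →* ℂˣ, orderOf φ = d → φ ^ n = 1 → cprod hDn A φ = 1 := by
  have hfinL : FiniteDimensional K L := Module.Finite.of_restrictScalars_finite ℚ K L
  have hn : n ≠ 0 := NeZero.ne n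
  have hD0 : D ≠ 0 := fun h => hn (Nat.eq_zero_of_zero_dvd (h ▸ hDn))
  induction d using Nat.strong_induction_on with
  | _ d ih =>
    intro φ hφd hφn
    have hdn : d ∣ n := by
      rw [← hφd]
      exact orderOf_dvd_of_pow_eq_one hφn
    have hd0 : d ≠ 0 := fun h => hn (Nat.eq_zero_of_zero_dvd (h ▸ hdn))
    set g := Nat.gcd d D with hg
    have hg0 : g ≠ 0 := Nat.gcd_ne_zero_left hd0
    obtain ⟨k, hk⟩ : g ∣ d := Nat.gcd_dvd_left d D
    have hk0 : 0 < k := by
      rcases Nat.eq_zero_or_pos k with h | h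
      · rw [h, mul_zero] at hk
        exact absurd hk hd0
      · exact h
    -- the product over `a` of the relations for `φ ^ a`
    have h1 : ∏ j ∈ Finset.range k, cprod hDn A (φ ^ (1 + g * j)) = 1 := by
      unfold cprod
      rw [Finset.prod_comm]
      refine Finset.prod_eq_one fun a _ => ?_
      have h2 : ((a : (ZMod n)ˣ) : ZMod n).val.Coprime n := ZMod.val_coe_unit_coprime _
      have h3 : orderOf (φ ^ ((a : (ZMod n)ˣ) : ZMod n).val) = d := by
        rw [← hφd]
        apply Nat.Coprime.orderOf_pow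
        rw [hφd]
        exact (Nat.Coprime.coprime_dvd_right hdn h2).symm
      have h4 := prod_one hA hK hin hde (φ ^ ((a : (ZMod n)ˣ) : ZMod n).val) hg0
        (Nat.gcd_dvd_right d D) (k := k) (by rw [h3, ← hk])
      rw [← h4]
      refine Finset.prod_congr rfl fun j _ => ?_
      rw [hpow_mul, hpow_mul, mul_comm]
    -- the factors
    have h5 : ∀ j ∈ Finset.range k, cprod hDn A (φ ^ (1 + g * j))
        = if (1 + g * j).Coprime d then cprod hDn A φ else 1 := by
      intro j _
      by_cases hj : (1 + g * j).Coprime d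
      · rw [if_pos hj]
        apply cprod_conj hDn φ (by rw [hφd]; exact hdn) (by rw [hφd]; exact hj)
        rw [hφd]
        change (1 + g * j) % g = 1 % g
        rw [Nat.add_mul_mod_self_left]
      · rw [if_neg hj]
        refine ih (orderOf (φ ^ (1 + g * j))) ?_ _ rfl ?_
        · rw [orderOf_pow' φ (by omega), hφd]
          have h6 : Nat.gcd d (1 + g * j) ≠ 1 := fun h => hj (Nat.Coprime.symm h)
          have h7 : 0 < Nat.gcd d (1 + g * j) := Nat.gcd_pos_of_pos_left _ (Nat.pos_of_ne_zero hd0)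
          exact Nat.div_lt_self (Nat.pos_of_ne_zero hd0) (by omega)
        · rw [hpow_mul, mul_comm, ← hpow_mul, hφn]
          apply MonoidHom.ext
          intro u
          rw [MonoidHom.pow_apply, MonoidHom.one_apply, one_pow]
    rw [Finset.prod_congr rfl h5, Finset.prod_ite, Finset.prod_const, Finset.prod_const_one,
      mul_one] at h1
    refine htf _ _ ?_ h1
    refine Finset.card_pos.mpr ⟨0, ?_⟩
    rw [Finset.mem_filter, Finset.mem_range]
    exact ⟨hk0, by rw [mul_zero, add_zero]; exact Nat.coprime_one_left d⟩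

end

end Pool.Agent.H600.SF
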