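import Mathlib
import Pool.Agent.H600.SF.Key
import Pool.Graph.R_pool_sql_team_seeded_c8625f6e.K4H34.ST.Main6

/-!
# Inductive invariants of characters with values in a given field
-/

set_option autoImplicit false
set_option linter.unusedSectionVars false

namespace Pool.Agent.H600.SF

open NumberField Pool.Agent.R389 Pool.Agent.K4H74 Pool.Agent.K4H74.ST Pool.Agent.K4H74.SK
  Pool.Agent.K4H77.SL Pool.Agent.K4H34.NC Pool.Agent.K4H34.AL

/-- The standard primitive `D`-th root of unity. -/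
noncomputable def zeta (D : ℕ) : ℂ := Complex.exp (2 * Real.pi * Complex.I / D)

lemma zeta_prim {D : ℕ} (hD : D ≠ 0) : IsPrimitiveRoot (zeta D) D := Complex.isPrimitiveRoot_exp D hD

lemma zeta_congr {D : ℕ} (hD : D ≠ 0) {a b : ℕ} (h : a ≡ b [MOD D]) : zeta D ^ a = zeta D ^ b := by
  have h1 := (zeta_prim hD).pow_eq_one
  rw [pow_eq_pow_mod a h1, pow_eq_pow_mod b h1, h]

lemma units_pow {G : Type} [Group G] {ψ : G →* ℂˣ} {n : ℕ} (h : ψ ^ n = 1) (g : G) :
    ((ψ g : ℂˣ) : ℂ) ^ n = 1 := by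
  have h1 := congrArg (fun x : ℂˣ => (x : ℂ)) (DFunLike.congr_fun h g)
  exact h1

section tf

variable {M : Type} [CommGroup M] {A : ArtinInvariant M}

lemma oddTwist (hO : TrivOdd A) (τ : ℂ ≃+* ℂ) : TrivOdd (twist A τ) := by
  intro K L _ _ _ _ _ _ hK ψ hψ
  have h1 := hO K L hK ((Units.map (τ : ℂ →+* ℂ).toMonoidHom).comp ψ) (fun φ c hc => by
    apply Units.ext
    have h2 : ((ψ c : ℂˣ) : ℂ) = -1 := by rw [hψ φ c hc]; rfl
    change τ ((ψ c : ℂˣ) : ℂ) = -1
    rw [h2, map_neg, map_one])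
  exact h1

lemma oneTwist (hR : TrivOne A) (τ : ℂ ≃+* ℂ) : TrivOne (twist A τ) := by
  intro K _ _
  change A.val K K (fun _ => τ 1) = 1
  rw [map_one]
  exact hR K

lemma oddFprod {ι : Type} [Fintype ι] {B : ι → ArtinInvariant M} (h : ∀ i, TrivOdd (B i)) :
    TrivOdd (fprod B) := by
  intro K L _ _ _ _ _ _ hK ψ hψ
  exact Finset.prod_eq_one fun i _ => h i K L hK ψ hψ

lemma oneFprod {ι : Type} [Fintype ι] {B : ι → ArtinInvariant M} (h : ∀ i, TrivOne (B i)) :
    TrivOne (fprod B) := by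
  intro K _ _
  exact Finset.prod_eq_one fun i _ => h i K

/-- A torsion free inductive invariant which is trivial on the trivial characters, the totally odd
linear characters and the class group characters of order dividing `D` is trivial on the characters
with values in the field of the `D`-th roots of unity. -/
theorem main_tf (htf : ∀ (x : M) (k : ℕ), 0 < k → x ^ k = 1 → x = 1) {m D : ℕ} (hm : m ≠ 0)
    (hD : D ≠ 0) (hR : TrivOne A) (hO : TrivOdd A) (hTS : TrivSplitLinE A m D) (K L : Type)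
    [Field K] [NumberField K] [Field L] [NumberField L] [Algebra K L] [IsGalois K L]
    {χ : (L ≃ₐ[K] L) → ℂ} (hχ : IsChar χ)
    (hv : ∀ σ : ℂ ≃+* ℂ, σ (zeta D) = zeta D → ∀ g, σ (χ g) = χ g) : A.val K L χ = 1 := by
  obtain ⟨N, i1, i2, i3, i4⟩ := Pool.Agent.K4H34.ST.exists_gal L
  have hfin : Finite (N ≃ₐ[ℚ] N) := inferInstance
  set e := Monoid.exponent (N ≃ₐ[ℚ] N) with he
  have he0 : e ≠ 0 := Monoid.exponent_ne_zero_of_finite
  have hn : 2 * e * D ≠ 0 := Nat.mul_ne_zero (Nat.mul_ne_zero two_ne_zero he0) hD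
  have hne : NeZero (2 * e * D) := ⟨hn⟩
  have hDn : D ∣ 2 * e * D := Dvd.intro_left _ rfl
  choose τ hτ using fun a : (ZMod.unitsMap hDn).ker =>
    exists_aut (2 * e * D) hn ((a : (ZMod (2 * e * D))ˣ) : ZMod (2 * e * D)).val
      (ZMod.val_coe_unit_coprime _)
  let B : ArtinInvariant M := fprod fun a => twist A (τ a)
  have b1 : TrivOne B := oneFprod fun a => oneTwist hR (τ a)
  have b2 : TrivOdd B := oddFprod fun a => oddTwist hO (τ a)
  have b3 : TrivSplitLinE B m (2 * e) := by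
    intro K L _ _ _ _ _ _ hK hin hde ψ hψ hψe
    have hψn : ψ ^ (2 * e * D) = 1 := by
      apply MonoidHom.ext
      intro u
      have h1 : (ψ u) ^ (2 * e) = 1 := DFunLike.congr_fun hψe u
      rw [MonoidHom.pow_apply, MonoidHom.one_apply, pow_mul, h1, one_pow]
    have h1 : B.val K L (lc ψ) = cprod hDn A ψ := by
      refine Finset.prod_congr rfl fun a _ => ?_
      change A.val K L (fun g => τ a (lc ψ g)) = _
      congr 1
      funext g
      rw [lc_pow]
      exact hτ a _ (units_pow hψn g)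
    rw [h1]
    exact cprod_one hDn htf hTS hK hin hde (orderOf ψ) ψ rfl hψn
  obtain ⟨k, hk, -, h1⟩ := main_order hm b1 b2 K L N
    (e := e) (fun y => Monoid.pow_exponent_eq_one y) b3 hχ
  have h2 := htf _ k hk h1
  have h3 : B.val K L χ = A.val K L χ ^ Fintype.card (ZMod.unitsMap hDn).ker := by
    rw [← Finset.card_univ, ← Finset.prod_const]
    refine Finset.prod_congr rfl fun a _ => ?_
    change A.val K L (fun g => τ a (χ g)) = _
    congr 1
    funext g
    refine hv (τ a) ?_ g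
    have h4 : zeta D ^ (2 * e * D) = 1 := by
      rw [mul_comm, pow_mul, (zeta_prim hD).pow_eq_one, one_pow]
    rw [hτ a _ h4]
    have h5 := (mem_ker_iff hDn (a : (ZMod (2 * e * D))ˣ)).mp a.2
    rw [zeta_congr hD h5, pow_one]
  rw [h3] at h2
  exact htf _ _ Fintype.card_pos h2

end tf

/-- The exponents `h` modulo `D` such that `ζ_D ↦ ζ_D ^ h` comes from an automorphism over `F`. -/
def conj (F : IntermediateField ℚ ℂ) (D : ℕ) : Set (ZMod D)ˣ :=
  {h | ∃ σ : ℂ ≃+* ℂ, (∀ x ∈ F, σ x = x) ∧ σ (zeta D) = zeta D ^ (h : ZMod D).val}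

/-- The trace over `F` of a linear character of order dividing `D`. -/
noncomputable def tr (F : IntermediateField ℚ ℂ) (D : ℕ) {G : Type} [Group G] (ψ : G →* ℂˣ) :
    G → ℂ := fun g => ∑ᶠ h ∈ conj F D, ((ψ g : ℂˣ) : ℂ) ^ (h : ZMod D).val

/-- An automorphism of `ℂ` over `ζ` is the identity on `ℚ(ζ)`. -/
lemma fix_adjoin {z : ℂ} {σ : ℂ ≃+* ℂ} (h : σ z = z) {x : ℂ}
    (hx : x ∈ IntermediateField.adjoin ℚ {z}) : σ x = x := by
  induction hx using IntermediateField.adjoin_induction with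
  | mem x hx => rw [Set.mem_singleton_iff.mp hx, h]
  | algebraMap q => rw [eq_ratCast, map_ratCast]
  | add x y _ _ hx hy => rw [map_add, hx, hy]
  | inv x _ hx => rw [map_inv₀, hx]
  | mul x y _ _ hx hy => rw [map_mul, hx, hy]

section field

variable {M : Type} [CommGroup M] {A : ArtinInvariant M}

/-- The invariant is trivial on the traces over `F` of the class group characters of order dividing
`D`. -/
def TrivTr (A : ArtinInvariant M) (m D : ℕ) (F : IntermediateField ℚ ℂ) : Prop :=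
  ∀ (K L : Type) [Field K] [NumberField K] [Field L] [NumberField L] [Algebra K L] [IsGalois K L],
    IsTotallyComplex K →
    (∀ P : Ideal (𝓞 L), P.IsMaximal → ∀ g ∈ inertia K P, g = 1) →
    (∀ P : Ideal (𝓞 L), P.IsMaximal → (m : 𝓞 L) ∈ P → ∀ g ∈ decomp K P, g = 1) →
    ∀ ψ : (L ≃ₐ[K] L) →* ℂˣ, Function.Injective ψ → ψ ^ D = 1 → A.val K L (tr F D ψ) = 1

lemma tr_eq (F : IntermediateField ℚ ℂ) (D : ℕ) [NeZero D] [Fintype (conj F D)] {G : Type}
    [Group G] [Finite G] (ψ : G →* ℂˣ) :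
    tr F D ψ = ∑ h : conj F D, lc (ψ ^ (((h : (ZMod D)ˣ) : ZMod D)).val) := by
  funext g
  rw [tr, ← finsum_set_coe_eq_finsum_mem, finsum_eq_sum_of_fintype, Finset.sum_apply]
  exact Finset.sum_congr rfl fun h _ => by rw [lc_pow]

lemma isChar_tr (F : IntermediateField ℚ ℂ) {D : ℕ} (hD : D ≠ 0) {G : Type} [Group G] [Finite G]
    (ψ : G →* ℂˣ) : IsChar (tr F D ψ) := by
  classical
  have hne : NeZero D := ⟨hD⟩
  have hfin : Fintype (conj F D) := Fintype.ofFinite _
  rw [tr_eq]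
  exact Finset.sum_induction _ IsChar (fun a b ha hb => ha.add hb) IsChar.zero
    (fun j _ => IsChar.lc _)

theorem main_field (htf : ∀ (x : M) (k : ℕ), 0 < k → x ^ k = 1 → x = 1) {m D : ℕ} (hm : m ≠ 0)
    (hD : D ≠ 0) {F : IntermediateField ℚ ℂ} (hF : F ≤ IntermediateField.adjoin ℚ {zeta D})
    (hR : TrivOne A) (hO : TrivOdd A) (hT : TrivTr A m D F) (K L : Type)
    [Field K] [NumberField K] [Field L] [NumberField L] [Algebra K L] [IsGalois K L]
    {χ : (L ≃ₐ[K] L) → ℂ} (hχ : IsChar χ) (hv : ∀ g, χ g ∈ F) : A.val K L χ = 1 := by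
  classical
  have hne : NeZero D := ⟨hD⟩
  have hfin : Fintype (conj F D) := Fintype.ofFinite _
  choose τ hτF hτ using fun h : conj F D => h.2
  let B : ArtinInvariant M := fprod fun h => twist A (τ h)
  have b1 : TrivOne B := oneFprod fun a => oneTwist hR (τ a)
  have b2 : TrivOdd B := oddFprod fun a => oddTwist hO (τ a)
  have b3 : TrivSplitLinE B m D := by
    intro K L _ _ _ _ _ _ hK hin hde ψ hψ hψD
    rw [← hT K L hK hin hde ψ hψ hψD, tr_eq, val_sum]
    refine Finset.prod_congr rfl fun h _ => ?_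
    change A.val K L (fun g => τ h (lc ψ g)) = _
    congr 1
    funext g
    rw [lc_pow]
    obtain ⟨i, -, hi⟩ := (zeta_prim hD).eq_pow_of_pow_eq_one (units_pow hψD g)
    have h1 : lc ψ g = zeta D ^ i := hi.symm
    rw [h1, ← hi, map_pow, hτ h, ← pow_mul, ← pow_mul, mul_comm]
  have h1 : B.val K L χ = 1 := by
    refine main_tf htf hm hD b1 b2 b3 K L hχ fun σ hσ g => fix_adjoin hσ (hF (hv g))
  have h3 : B.val K L χ = A.val K L χ ^ Fintype.card (conj F D) := by
    rw [← Finset.card_univ, ← Finset.prod_const]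
    refine Finset.prod_congr rfl fun a _ => ?_
    change A.val K L (fun g => τ a (χ g)) = _
    congr 1
    funext g
    exact hτF a _ (hv g)
  rw [h3] at h1
  refine htf _ _ (Fintype.card_pos_iff.mpr ⟨⟨1, RingEquiv.refl ℂ, fun x _ => rfl, ?_⟩⟩) h1
  change zeta D = zeta D ^ ((1 : (ZMod D)ˣ) : ZMod D).val
  rw [Units.val_one]
  have h6 : (1 : ZMod D).val ≡ 1 [MOD D] := by
    rw [← ZMod.natCast_eq_natCast_iff, ZMod.natCast_val, ZMod.cast_id, Nat.cast_one]
  rw [zeta_congr hD h6, pow_one]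

/-- Torsion is allowed. -/
theorem main_tor {m D : ℕ} (hm : m ≠ 0)
    (hD : D ≠ 0) {F : IntermediateField ℚ ℂ} (hF : F ≤ IntermediateField.adjoin ℚ {zeta D})
    (hR : TrivOne A) (hO : TrivOdd A) (hT : TrivTr A m D F) (K L : Type)
    [Field K] [NumberField K] [Field L] [NumberField L] [Algebra K L] [IsGalois K L]
    {χ : (L ≃ₐ[K] L) → ℂ} (hχ : IsChar χ) (hv : ∀ g, χ g ∈ F) : IsOfFinOrder (A.val K L χ) := by
  let T := CommGroup.torsion M
  let B : ArtinInvariant (M ⧸ T) := mapInv (QuotientGroup.mk' T) A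
  have htf : ∀ (x : M ⧸ T) (k : ℕ), 0 < k → x ^ k = 1 → x = 1 := by
    intro x k hk h
    obtain ⟨y, rfl⟩ := QuotientGroup.mk'_surjective T x
    rw [← map_pow] at h
    have h1 : IsOfFinOrder (y ^ k) := (QuotientGroup.eq_one_iff _).mp h
    exact (QuotientGroup.eq_one_iff _).mpr ((isOfFinOrder_pow.mp h1).resolve_right hk.ne')
  have key : B.val K L χ = 1 := by
    refine main_field htf hm hD hF ?_ ?_ ?_ K L hχ hv
    · intro K _ _
      change QuotientGroup.mk' T (A.val K K _) = 1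
      rw [hR K, map_one]
    · intro K L _ _ _ _ _ _ hK ψ hψ
      change QuotientGroup.mk' T (A.val K L _) = 1
      rw [hO K L hK ψ hψ, map_one]
    · intro K L _ _ _ _ _ _ hK hin hde ψ hψ hψe
      change QuotientGroup.mk' T (A.val K L _) = 1
      rw [hT K L hK hin hde ψ hψ hψe, map_one]
  exact (QuotientGroup.eq_one_iff _).mp key

/-- An inductive invariant of a character to a suitable power is a product of powers of its values
on the family. -/
theorem power_field (A : ArtinInvariant M) (T : Pair → Prop) {m D : ℕ}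
    (hm : m ≠ 0) (hD : D ≠ 0) {F : IntermediateField ℚ ℂ}
    (hF : F ≤ IntermediateField.adjoin ℚ {zeta D})
    (h1 : ∀ (K : Type) [Field K] [NumberField K], T ⟨⟨K, K⟩, fun _ => 1⟩)
    (h2 : ∀ E : Ext, IsTotallyReal E.K → ∀ ψ : G E →* ℂˣ, (∀ t : G E, IsCC t → ψ t = -1) →
      T ⟨E, lin ψ⟩)
    (h3 : ∀ E : Ext, IsTotallyComplex E.K →
      (∀ P : Ideal (𝓞 E.L), P.IsMaximal → (∀ g ∈ Pool.Agent.K4H77.SL.inertia E.K P, g = 1) ∧
        ((m : 𝓞 E.L) ∈ P → ∀ g ∈ Pool.Agent.K4H77.SL.decomp E.K P, g = 1)) →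
      ∀ ψ : G E →* ℂˣ, Function.Injective ψ → ψ ^ D = 1 → T ⟨E, tr F D ψ⟩)
    {E : Ext} {χ : G E → ℂ} (hχ : IsChr χ) (hv : ∀ g, χ g ∈ F) :
    ∃ n : ℕ, 0 < n ∧
      ∃ (r : ℕ) (x : Fin r → Pair) (k : Fin r → ℤ), (∀ i, T (x i)) ∧
      pval A ⟨E, χ⟩ ^ n = ∏ i, pval A (x i) ^ k i := by
  let P : Subgroup M := Subgroup.closure {y : M | ∃ x : Pair, T x ∧ y = pval A x}
  let B : ArtinInvariant (M ⧸ P) := mapInv (QuotientGroup.mk' P) A
  have hB : ∀ x : Pair, T x → B.val x.1.K x.1.L x.2 = 1 := by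
    intro x hx
    exact (QuotientGroup.eq_one_iff (N := P) _).mpr (Subgroup.subset_closure ⟨x, hx, rfl⟩)
  have i1 : TrivOne B := by
    intro K _ _
    exact hB _ (h1 K)
  have i2 : TrivTr B m D F := by
    intro K L _ _ _ _ _ _ hK hin hde ψ hψ hψe
    exact hB _ (h3 ⟨K, L⟩ hK (fun P hP => ⟨hin P hP, fun hm => hde P hP hm⟩) ψ hψ hψe)
  have i3 : TrivOdd B := by
    intro K L _ _ _ _ _ _ hK ψ hψ
    refine hB _ (h2 ⟨K, L⟩ hK ψ ?_)
    rintro t ⟨φ, hφ⟩
    refine hψ φ t ?_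
    ext x
    exact (hφ x).symm
  obtain ⟨n, hn, h5⟩ := isOfFinOrder_iff_pow_eq_one.mp
    (main_tor hm hD hF i1 i3 i2 E.K E.L (isChr_iff.mp hχ) hv)
  refine ⟨n, hn, closure_form A T ?_⟩
  have h6 : B.val E.K E.L χ = QuotientGroup.mk' P (pval A ⟨E, χ⟩) := rfl
  rw [h6, ← map_pow] at h5
  exact (QuotientGroup.eq_one_iff _).mp h5

end field

end Pool.Agent.H600.SF
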