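import Pool.Agent.H992.SF.Defs

/-! SF2 (helper992): invariant functions are constant. -/

set_option autoImplicit false

open MeasureTheory Filter Topology

namespace Pool.Agent.H600.SF

open Pool.Agent.N661.BR (MW shift IsErgodic)

theorem const : Pool.Agent.H992.SF.S_CONST := by
  intro m hm he g hg hinv
  refine Filter.exists_eventuallyEq_const_of_forall_separating MeasurableSet fun U hU => ?_
  have hA : MeasurableSet (g ⁻¹' U) := hg hU
  have h1 : m (g ⁻¹' U) = 0 ∨ m (g ⁻¹' U) = 1 := by
    refine he _ hA fun x => ?_
    refine ((hinv x).mono fun f hf => ?_).set_eq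
    have hf' : g (shift x f) = g f := hf
    rw [Set.mem_preimage, Set.mem_preimage, Set.mem_preimage, hf']
  rcases h1 with h1 | h1
  · right
    have h2 := measure_eq_zero_iff_ae_notMem.1 h1
    filter_upwards [h2] with f hf
    exact hf
  · left
    have h2 : ∀ᵐ f ∂m, f ∈ g ⁻¹' U := (prob_compl_eq_zero_iff hA).2 h1
    filter_upwards [h2] with f hf
    exact hf

end Pool.Agent.H600.SF
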